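import Pool.Agent.KS6_45.WC.Upper

set_option autoImplicit false
set_option linter.unusedSectionVars false

/-!
# Bounded strong colouring numbers give polynomial weak colouring numbers
-/

namespace Pool.Agent.KS6_45.WC

open Pool.Agent.TH492.Col

/-- geometric step -/
theorem geo_le (j m : ℕ) : ∑ l ∈ Finset.range m, j ^ l + j ^ m ≤ (j + 1) ^ m := by
  induction m with
  | zero => simp
  | succ m ih =>
    rw [Finset.sum_range_succ]
    have h1 : j ^ m ≤ (j + 1) ^ m := Nat.pow_le_pow_left (Nat.le_succ j) m
    calc ∑ l ∈ Finset.range m, j ^ l + j ^ m + j ^ (m + 1)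
        = (∑ l ∈ Finset.range m, j ^ l + j ^ m) + j * j ^ m := by rw [pow_succ]; ring
      _ ≤ (j + 1) ^ m + j * (j + 1) ^ m := add_le_add ih (Nat.mul_le_mul_left _ h1)
      _ = (j + 1) ^ (m + 1) := by rw [pow_succ]; ring

/-- the weight of `a` occupied slots of radius `j` out of `k` slots -/
def Gf (k j a : ℕ) : ℕ := ∑ i ∈ Finset.range a, j ^ (k - 1 - i)

theorem Gf_mono {k j a a' : ℕ} (h : a ≤ a') : Gf k j a ≤ Gf k j a' := by
  unfold Gf
  exact Finset.sum_le_sum_of_subset (Finset.range_subset_range.2 h)

theorem Gf_full {k j a : ℕ} (h : a ≤ k) :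
    Gf k j k = Gf k j a + ∑ l ∈ Finset.range (k - a), j ^ l := by
  obtain ⟨m, rfl⟩ : ∃ m, k = a + m := ⟨k - a, by omega⟩
  unfold Gf
  rw [Finset.sum_range_add, Nat.add_sub_cancel_left]
  congr 1
  rw [← Finset.sum_range_reflect]
  apply Finset.sum_congr rfl
  intro i hi
  rw [Finset.mem_range] at hi
  congr 1
  omega

theorem Gf_succ (k j a : ℕ) : Gf k j (a + 1) = Gf k j a + j ^ (k - 1 - a) := by
  unfold Gf
  rw [Finset.sum_range_succ]

theorem psi_low {k J : ℕ} {a a' : ℕ → ℕ} (h1 : ∀ j, 1 ≤ j → j < J → a' j ≤ k)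
    (h2 : ∀ j, j ≤ J → a J ≤ a j) (h3 : a J ≤ k) (t : ℕ) (ht : t < J) :
    ∑ j ∈ Finset.Icc 1 t, Gf k j (a' j) + 1 ≤
      ∑ j ∈ Finset.Icc 1 t, Gf k j (a j) + (t + 1) ^ (k - a J) := by
  induction t with
  | zero => simp
  | succ t ih =>
    have h4 := ih (by omega)
    rw [Finset.sum_Icc_succ_top (by omega), Finset.sum_Icc_succ_top (by omega)]
    have h5 : Gf k (t + 1) (a' (t + 1)) ≤ Gf k (t + 1) (a (t + 1)) +
        ∑ l ∈ Finset.range (k - a J), (t + 1) ^ l := by
      calc Gf k (t + 1) (a' (t + 1)) ≤ Gf k (t + 1) k := Gf_mono (h1 _ (by omega) ht)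
        _ = Gf k (t + 1) (a J) + ∑ l ∈ Finset.range (k - a J), (t + 1) ^ l := Gf_full h3
        _ ≤ _ := Nat.add_le_add_right (Gf_mono (h2 _ ht.le)) _
    have h6 := geo_le (t + 1) (k - a J)
    omega

theorem psi_step {k J R : ℕ} {a a' : ℕ → ℕ} (hJ : 1 ≤ J) (hJR : J ≤ R)
    (h0 : ∀ j, J < j → a' j ≤ a j) (hJa : a' J + 1 ≤ a J)
    (h1 : ∀ j, 1 ≤ j → j < J → a' j ≤ k)
    (h2 : ∀ j, j ≤ J → a J ≤ a j) (h3 : a J ≤ k) :
    ∑ j ∈ Finset.Icc 1 R, Gf k j (a' j) + 1 ≤ ∑ j ∈ Finset.Icc 1 R, Gf k j (a j) := by
  induction R, hJR using Nat.le_induction with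
  | base =>
    obtain ⟨t, rfl⟩ : ∃ t, J = t + 1 := ⟨J - 1, by omega⟩
    rw [Finset.sum_Icc_succ_top (by omega), Finset.sum_Icc_succ_top (by omega)]
    have h4 := psi_low h1 h2 h3 t (by omega)
    have h5 : Gf k (t + 1) (a' (t + 1)) + (t + 1) ^ (k - a (t + 1)) ≤
        Gf k (t + 1) (a (t + 1)) := by
      obtain ⟨b, hb⟩ : ∃ b, a (t + 1) = b + 1 := ⟨a (t + 1) - 1, by omega⟩
      rw [hb, Gf_succ, show k - (b + 1) = k - 1 - b by omega]
      exact Nat.add_le_add_right (Gf_mono (by omega)) _
    omega
  | succ R hR ih =>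
    rw [Finset.sum_Icc_succ_top (by omega), Finset.sum_Icc_succ_top (by omega)]
    have := Gf_mono (k := k) (j := R + 1) (h0 (R + 1) (by omega))
    omega

section

variable {n : ℕ} (G : SimpleGraph (Fin n)) (σ : Equiv.Perm (Fin n))

/-- the vertices below `x` reachable from `x` through vertices not below `x`. -/
def Tset (x : Fin n) : Set (Fin n) :=
  {y | σ y < σ x ∧ ∃ p : G.Walk x y, ∀ z ∈ p.support, z ≠ y → σ x ≤ σ z}

theorem tset_clique {x y z : Fin n} (hy : y ∈ Tset G σ x) (hz : z ∈ Tset G σ x)
    (h : σ z < σ y) : z ∈ Tset G σ y := by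
  obtain ⟨hyx, p, hp⟩ := hy
  obtain ⟨hzx, q, hq⟩ := hz
  refine ⟨h, p.reverse.append q, ?_⟩
  intro a ha haz
  rw [SimpleGraph.Walk.mem_support_append_iff] at ha
  rcases ha with ha | ha
  · rw [SimpleGraph.Walk.support_reverse, List.mem_reverse] at ha
    by_cases hay : a = y
    · rw [hay]
    · exact hyx.le.trans (hp a ha hay)
  · exact hyx.le.trans (hq a ha haz)

open Classical in
/-- descending reach with `r - 1` steps -/
noncomputable def Dn : ℕ → Fin n → Finset (Fin n)
  | 0, _ => ∅
  | r + 1, x => insert x ((Set.toFinite (Tset G σ x)).toFinset.biUnion (fun y => Dn r y))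

theorem mem_Dn_succ (r : ℕ) (x v : Fin n) :
    v ∈ Dn G σ (r + 1) x ↔ v = x ∨ ∃ y ∈ Tset G σ x, v ∈ Dn G σ r y := by
  classical
  rw [Dn, Finset.mem_insert, Finset.mem_biUnion]
  simp

theorem Dn_succ (r : ℕ) : ∀ x, Dn G σ r x ⊆ Dn G σ (r + 1) x := by
  induction r with
  | zero => intro x; rw [Dn]; exact Finset.empty_subset _
  | succ r ih =>
    intro x v hv
    rw [mem_Dn_succ] at hv ⊢
    rcases hv with h | ⟨y, hy, h⟩
    · exact Or.inl h
    · exact Or.inr ⟨y, hy, ih y h⟩

theorem Dn_mono {r r' : ℕ} (h : r ≤ r') (x : Fin n) : Dn G σ r x ⊆ Dn G σ r' x := by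
  induction h with
  | refl => exact Finset.Subset.refl _
  | step _ ih => exact ih.trans (Dn_succ G σ _ x)

theorem weak_sub_Dn (r : ℕ) : ∀ u, ∀ v ∈ Weak G σ r u, v ∈ Dn G σ (r + 1) u := by
  induction r using Nat.strong_induction_on with
  | _ r ih =>
    intro u v hv
    rw [mem_Dn_succ]
    by_cases hvu : v = u
    · exact Or.inl hvu
    · right
      obtain ⟨i, hi, w, hw, hwu, hvw⟩ := weak_step hv hvu
      refine ⟨w, ⟨hwu, ?_⟩, Dn_mono G σ (by omega) w (ih (r - 1 - i) (by omega) w v hvw)⟩
      obtain ⟨_, p, _, _, hp⟩ := hw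
      refine ⟨p, fun z hz hzw => ?_⟩
      by_cases hzu : z = u
      · rw [hzu]
      · exact (hp z hz hzu hzw).le

theorem card_le_psi {k : ℕ} (hk : ∀ x, (Tset G σ x).ncard ≤ k) (R : ℕ) : ∀ M : ℕ,
    ∀ (N : Finset (Fin n)) (ρ : Fin n → ℕ), (∀ t ∈ N, (σ t).val < M) → N.card ≤ k →
      (∀ y ∈ N, ∀ z ∈ N, σ z < σ y → z ∈ Tset G σ y) → (∀ t, ρ t ≤ R) →
      (N.biUnion (fun t => Dn G σ (ρ t) t)).card ≤
        ∑ j ∈ Finset.Icc 1 R, Gf k j ((N.filter (fun t => j ≤ ρ t)).card) := by
  classical
  intro M
  induction M with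
  | zero =>
    intro N ρ hN _ _ _
    have : N = ∅ := Finset.eq_empty_of_forall_notMem (fun t ht => absurd (hN t ht) (by omega))
    subst this
    simp
  | succ M ih =>
    intro N ρ hN hNk hcl hρ
    by_cases hex : ∃ t ∈ N, (σ t).val = M
    · obtain ⟨t, ht, htM⟩ := hex
      have hlt : ∀ y ∈ N, y ≠ t → σ y < σ t := by
        intro y hy hyt
        have h1 := hN y hy
        have h2 : (σ y).val ≠ M := fun he => hyt (σ.injective (Fin.ext (he.trans htM.symm)))
        rw [Fin.lt_def]
        omega
      rcases Nat.eq_zero_or_pos (ρ t) with h0 | hpos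
      · -- radius exhausted
        have h1 := ih (N.erase t) ρ (fun y hy => by
            rw [Finset.mem_erase] at hy
            have := Fin.lt_def.1 (hlt y hy.2 hy.1)
            omega)
          ((Finset.card_erase_le).trans hNk)
          (fun y hy z hz h => hcl y (Finset.mem_of_mem_erase hy) z (Finset.mem_of_mem_erase hz) h)
          hρ
        have h2 : N.biUnion (fun t => Dn G σ (ρ t) t) =
            (N.erase t).biUnion (fun t => Dn G σ (ρ t) t) := by
          ext v
          simp only [Finset.mem_biUnion, Finset.mem_erase]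
          constructor
          · rintro ⟨y, hy, hv⟩
            by_cases hyt : y = t
            · rw [hyt, h0, Dn] at hv
              exact absurd hv (Finset.notMem_empty _)
            · exact ⟨y, ⟨hyt, hy⟩, hv⟩
          · rintro ⟨y, hy, hv⟩
            exact ⟨y, hy.2, hv⟩
        rw [h2]
        refine h1.trans (Finset.sum_le_sum fun j _ => Gf_mono (Finset.card_le_card ?_))
        exact Finset.filter_subset_filter _ (Finset.erase_subset _ _)
      · obtain ⟨J, hJ⟩ : ∃ J, J = ρ t := ⟨_, rfl⟩
        set N' : Finset (Fin n) := (Set.toFinite (Tset G σ t)).toFinset with hN'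
        have hmemN' : ∀ y, y ∈ N' ↔ y ∈ Tset G σ t := by intro y; simp [hN']
        have hN'card : N'.card ≤ k := by
          rw [hN', ← Set.ncard_eq_toFinset_card]
          exact hk t
        set ρ' : Fin n → ℕ := fun x => max (if x ∈ N then ρ x else 0) (J - 1) with hρ'
        have htN' : t ∉ N' := by
          rw [hmemN']
          exact fun h => lt_irrefl _ h.1
        have hNN' : ∀ y ∈ N, y ≠ t → y ∈ N' := by
          intro y hy hyt
          rw [hmemN']
          exact hcl t ht y hy (hlt y hy hyt)
        have h1 := ih N' ρ' (fun y hy => by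
            have := Fin.lt_def.1 ((hmemN' y).1 hy).1
            omega)
          hN'card
          (fun y hy z hz h => tset_clique G σ ((hmemN' y).1 hy) ((hmemN' z).1 hz) h)
          (fun x => by
            simp only [hρ']
            apply max_le
            · split
              · exact hρ x
              · omega
            · have := hρ t
              omega)
        have h2 : N.biUnion (fun t => Dn G σ (ρ t) t) ⊆
            insert t (N'.biUnion (fun t => Dn G σ (ρ' t) t)) := by
          intro v hv
          rw [Finset.mem_biUnion] at hv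
          obtain ⟨y, hy, hv⟩ := hv
          rw [Finset.mem_insert, Finset.mem_biUnion]
          by_cases hyt : y = t
          · rw [hyt, ← hJ, show J = (J - 1) + 1 by omega, mem_Dn_succ] at hv
            rcases hv with hv | ⟨z, hz, hv⟩
            · exact Or.inl hv
            · right
              refine ⟨z, (hmemN' z).2 hz, Dn_mono G σ ?_ z hv⟩
              simp only [hρ']
              exact le_max_right _ _
          · right
            refine ⟨y, hNN' y hy hyt, Dn_mono G σ ?_ y hv⟩
            simp only [hρ', if_pos hy]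
            exact le_max_left _ _
        have h3 := psi_step (k := k) (J := J) (R := R)
          (a := fun j => (N.filter (fun t => j ≤ ρ t)).card)
          (a' := fun j => (N'.filter (fun t => j ≤ ρ' t)).card)
          (by omega) (by rw [hJ]; exact hρ t)
          (by
            intro j hj
            apply Finset.card_le_card
            intro y hy
            rw [Finset.mem_filter] at hy ⊢
            obtain ⟨_, hy2⟩ := hy
            simp only [hρ'] at hy2
            rcases le_max_iff.1 hy2 with h | h
            · by_cases hyN : y ∈ N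
              · rw [if_pos hyN] at h
                exact ⟨hyN, h⟩
              · rw [if_neg hyN] at h
                omega
            · omega)
          (by
            have hss : N'.filter (fun t => J ≤ ρ' t) ⊂ N.filter (fun t => J ≤ ρ t) := by
              rw [Finset.ssubset_iff_of_subset]
              · refine ⟨t, ?_, ?_⟩
                · rw [Finset.mem_filter]
                  exact ⟨ht, hJ.le⟩
                · rw [Finset.mem_filter]
                  exact fun h => htN' h.1
              · intro y hy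
                rw [Finset.mem_filter] at hy ⊢
                obtain ⟨_, hy2⟩ := hy
                simp only [hρ'] at hy2
                rcases le_max_iff.1 hy2 with h | h
                · by_cases hyN : y ∈ N
                  · rw [if_pos hyN] at h
                    exact ⟨hyN, h⟩
                  · rw [if_neg hyN] at h
                    omega
                · omega
            exact Finset.card_lt_card hss)
          (fun j _ _ => (Finset.card_filter_le _ _).trans hN'card)
          (by
            intro j hj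
            apply Finset.card_le_card
            intro y hy
            rw [Finset.mem_filter] at hy ⊢
            exact ⟨hy.1, hj.trans hy.2⟩)
          ((Finset.card_filter_le _ _).trans hNk)
        calc (N.biUnion (fun t => Dn G σ (ρ t) t)).card
            ≤ (insert t (N'.biUnion (fun t => Dn G σ (ρ' t) t))).card := Finset.card_le_card h2
          _ ≤ (N'.biUnion (fun t => Dn G σ (ρ' t) t)).card + 1 := Finset.card_insert_le _ _
          _ ≤ ∑ j ∈ Finset.Icc 1 R, Gf k j ((N'.filter (fun t => j ≤ ρ' t)).card) + 1 :=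
              Nat.add_le_add_right h1 1
          _ ≤ _ := h3
    · apply ih N ρ _ hNk hcl hρ
      intro t ht
      have h1 := hN t ht
      have h2 : (σ t).val ≠ M := fun he => hex ⟨t, ht, he⟩
      omega

theorem weak_le_of_bounded {k : ℕ} (hk1 : 1 ≤ k) (hk : ∀ x, (Tset G σ x).ncard ≤ k) (r : ℕ)
    (u : Fin n) : (Weak G σ r u).ncard ≤ (r + 1) ^ k := by
  classical
  have h1 := card_le_psi G σ hk (r + 1) n {u} (fun _ => r + 1) (fun t _ => (σ t).2)
    (by simpa using hk1)
    (by
      intro y hy z hz h
      rw [Finset.mem_singleton] at hy hz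
      rw [hy, hz] at h
      exact absurd h (lt_irrefl _))
    (fun _ => le_rfl)
  rw [Finset.singleton_biUnion] at h1
  have h2 : (Weak G σ r u).ncard ≤ (Dn G σ (r + 1) u).card := by
    have := Set.ncard_le_ncard (s := Weak G σ r u) (t := (Dn G σ (r + 1) u : Set (Fin n)))
      (fun v hv => weak_sub_Dn G σ r u v hv) (Finset.finite_toSet _)
    rwa [Set.ncard_coe_finset] at this
  refine h2.trans (h1.trans ?_)
  calc ∑ j ∈ Finset.Icc 1 (r + 1), Gf k j ((({u} : Finset (Fin n)).filter
        (fun _ => j ≤ r + 1)).card)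
      ≤ ∑ j ∈ Finset.Icc 1 (r + 1), (r + 1) ^ (k - 1) := by
        apply Finset.sum_le_sum
        intro j hj
        rw [Finset.mem_Icc] at hj
        refine (Gf_mono (Finset.card_filter_le _ _)).trans ?_
        rw [Finset.card_singleton]
        unfold Gf
        rw [Finset.sum_range_one, Nat.sub_zero]
        exact Nat.pow_le_pow_left hj.2 _
    _ = (r + 1) ^ k := by
        rw [Finset.sum_const, Nat.card_Icc, smul_eq_mul, Nat.add_sub_cancel]
        obtain ⟨m, rfl⟩ : ∃ m, k = m + 1 := ⟨k - 1, by omega⟩
        rw [Nat.add_sub_cancel, pow_succ]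
        ring

end

/-- a graph all of whose strong colouring numbers are at most `b` has polynomial weak colouring
numbers. -/
theorem wcol_le_of_col_le {n b : ℕ} {G : SimpleGraph (Fin n)}
    (h : ∀ r, 1 ≤ r → col r G ≤ b) (r : ℕ) : wcol r G ≤ (r + 1) ^ b := by
  classical
  rcases Nat.eq_zero_or_pos n with hn | hn
  · subst hn
    apply Nat.sInf_le
    exact ⟨1, fun u => u.elim0⟩
  obtain ⟨σ, hσ⟩ := col_mem n G
  have hb := h n hn
  apply Nat.sInf_le
  refine ⟨σ, ?_⟩
  have hT : ∀ x, (Tset G σ x).ncard + 1 ≤ b := by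
    intro x
    have hx : x ∉ Tset G σ x := fun h => lt_irrefl _ h.1
    have h1 : (insert x (Tset G σ x)).ncard = (Tset G σ x).ncard + 1 :=
      Set.ncard_insert_of_notMem hx (Set.toFinite _)
    rw [← h1]
    refine (Set.ncard_le_ncard ?_ (Set.toFinite _)).trans ((hσ x).trans hb)
    intro y hy
    rcases hy with rfl | ⟨hyx, p, hp⟩
    · exact ⟨le_rfl, .nil, by simp, by simp, by
        intro w hw hwu _
        rw [SimpleGraph.Walk.support_nil, List.mem_singleton] at hw
        exact absurd hw hwu⟩
    · apply strong_of_split p.bypass hyx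
      · intro z hz hzy
        exact hp z (p.support_bypass_subset_support hz) hzy
      · have := p.bypass_isPath.length_lt
        rw [Fintype.card_fin] at this
        exact this.le
  intro u
  exact weak_le_of_bounded G σ (by have := hT u; omega) (fun x => by have := hT x; omega) r u

end Pool.Agent.KS6_45.WC
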