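import Pool.Agent.KS6_45.WC.Tree

set_option autoImplicit false
set_option linter.unusedSectionVars false

/-!
# Linear strong colouring numbers, exponential weak colouring numbers
-/

namespace Pool.Agent.KS6_45.WC

open Pool.Agent.TH492.Col
open Pool.Agent.TH492.Gad (WR WR_mono)

/-- subgraphs of the unfoldings of the full `d`-ary trees -/
def ClsT (d : ℕ) (n : ℕ) (G : SimpleGraph (Fin n)) : Prop :=
  ∃ (m N : ℕ) (f : G →g Unf (Tr d m) (rg d m) N), Function.Injective f

theorem clsT_monotone (d : ℕ) : Monotone (ClsT d) := by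
  rintro n m G H f hf ⟨k, N, f', hf'⟩
  exact ⟨k, N, f'.comp f, hf'.comp hf⟩

theorem clsT_col {d : ℕ} (hd : 1 ≤ d) {n : ℕ} {G : SimpleGraph (Fin n)} (hG : ClsT d n G) {r : ℕ}
    (hr : 1 ≤ r) : col r G ≤ (d - 1) * r + 2 := by
  obtain ⟨m, N, f, hf⟩ := hG
  classical
  have h := col_le_of_cert (rg_injective d m) (r := r) (K := d + (r - 1) * (d - 1))
    (fun x => ⟨CC d m x, TT d m x, cert d m x, TT_card d m x r⟩) f hf
  refine h.trans ?_
  obtain ⟨e, rfl⟩ : ∃ e, d = e + 1 := ⟨d - 1, by omega⟩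
  obtain ⟨s, rfl⟩ : ∃ s, r = s + 1 := ⟨r - 1, by omega⟩
  simp only [Nat.add_sub_cancel]
  apply le_of_eq
  ring

/-- transport of a lower bound for weak reachability to graphs on `Fin n`. -/
theorem le_wcol_of_rank {V : Type} [Fintype V] (GV : SimpleGraph V) {r Q : ℕ}
    (h : ∀ τ : V → ℕ, Function.Injective τ → ∃ u, Q ≤ (WR GV τ r u).ncard) :
    ∃ (n : ℕ) (G : SimpleGraph (Fin n)) (f : G →g GV), Function.Injective f ∧ Q ≤ wcol r G := by
  classical
  let e : V ≃ Fin (Fintype.card V) := Fintype.equivFin V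
  let G : SimpleGraph (Fin (Fintype.card V)) := GV.comap e.symm
  let iso : G ≃g GV := SimpleGraph.Iso.comap e.symm GV
  refine ⟨Fintype.card V, G, iso.toHom, iso.injective, ?_⟩
  apply le_wcol
  intro σ
  obtain ⟨u, hu⟩ := h (fun v => (σ (e v)).val)
    (fun a b hab => e.injective (σ.injective (Fin.ext hab)))
  refine ⟨e u, hu.trans ?_⟩
  apply Set.ncard_le_ncard_of_injOn e _ e.injective.injOn (Set.toFinite _)
  rintro w ⟨p, hp, hpw⟩
  let q : G.Walk (iso.symm u) (iso.symm w) := p.map iso.symm.toHom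
  have hq : q.length ≤ r := by
    simpa [q] using hp
  have hqs : ∀ x ∈ q.support, σ (e w) ≤ σ x := by
    intro x hx
    simp only [q, SimpleGraph.Walk.support_map, List.mem_map] at hx
    obtain ⟨y, hy, rfl⟩ := hx
    exact hpw y hy
  exact ⟨q.bypass, q.bypass_isPath, (q.length_bypass_le_length).trans hq,
    fun x hx => hqs x (q.support_bypass_subset_support hx)⟩

theorem tree_wr (d m N : ℕ) (hN : d * d ^ m < N + 1) (τ : UV (TV d m) N → ℕ)
    (hτ : Function.Injective τ) :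
    ∃ u, d ^ m ≤ (WR (Unf (Tr d m) (rg d m) N) τ m u).ncard := by
  classical
  rcases Nat.eq_zero_or_pos m with hm | hm
  · subst hm
    refine ⟨(⟨[], by simp⟩, fun _ => 0), ?_⟩
    rw [pow_zero, Nat.one_le_iff_ne_zero, ← Nat.pos_iff_ne_zero, Set.ncard_pos (Set.toFinite _)]
    exact ⟨_, .nil, by simp, fun x hx => by
      rw [SimpleGraph.Walk.support_nil, List.mem_singleton] at hx
      rw [hx]⟩
  by_cases hbig : ∃ u, d ^ m < (WR (Unf (Tr d m) (rg d m) N) τ 1 u).ncard
  · obtain ⟨u, hu⟩ := hbig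
    refine ⟨u, hu.le.trans (Set.ncard_le_ncard ?_ (Set.toFinite _))⟩
    intro w hw
    exact WR_mono hm hw
  push Not at hbig
  obtain ⟨w, hw⟩ := forcing (rg_injective d m) (lower d m) hN τ hτ hbig
  let nd : TV d m → UV (TV d m) N := fun x => (x, trunc (rg d m) N x w)
  have hwalk : ∀ l : List (Fin d), ∀ hl : l.length ≤ m,
      ∃ p : (Unf (Tr d m) (rg d m) N).Walk (nd ⟨[], by simp⟩) (nd ⟨l, hl⟩), p.length = l.length ∧
        ∀ x ∈ p.support, τ (nd ⟨l, hl⟩) ≤ τ x := by
    intro l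
    induction l using List.reverseRecOn with
    | nil =>
      intro hl
      exact ⟨.nil, by simp, fun x hx => by
        rw [SimpleGraph.Walk.support_nil, List.mem_singleton] at hx
        rw [hx]⟩
    | append_singleton l b ih =>
      intro hl
      have hl' : l.length ≤ m := by
        rw [List.length_append] at hl
        omega
      obtain ⟨p, hp1, hp2⟩ := ih hl'
      have hlt : rg d m ⟨l ++ [b], hl⟩ < rg d m ⟨l, hl'⟩ := rk_snoc_lt d l b m hl
      have hadj : (Tr d m).Adj ⟨l ++ [b], hl⟩ ⟨l, hl'⟩ := Or.inr ⟨b, rfl⟩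
      have h1 := hw ⟨l, hl'⟩ ⟨l ++ [b], hl⟩ hadj hlt
      have hadj2 : (Unf (Tr d m) (rg d m) N).Adj (nd ⟨l, hl'⟩) (nd ⟨l ++ [b], hl⟩) := by
        right
        refine ⟨hlt, hadj, ?_⟩
        simp only [nd]
        rw [trunc_trunc _ _ hlt.le]
      refine ⟨p.concat hadj2, ?_, ?_⟩
      · rw [SimpleGraph.Walk.length_concat, hp1, List.length_append, List.length_singleton]
      · intro x hx
        rw [SimpleGraph.Walk.support_concat, List.mem_append] at hx
        rcases hx with hx | hx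
        · exact h1.le.trans (hp2 x hx)
        · rw [List.mem_singleton] at hx
          rw [hx]
  refine ⟨nd ⟨[], by simp⟩, ?_⟩
  have hsub : Set.range nd ⊆ WR (Unf (Tr d m) (rg d m) N) τ m (nd ⟨[], by simp⟩) := by
    rintro _ ⟨⟨l, hl⟩, rfl⟩
    obtain ⟨p, hp1, hp2⟩ := hwalk l hl
    exact ⟨p, by rw [hp1]; exact hl, hp2⟩
  have hinj : Function.Injective nd := fun x y h => congrArg Prod.fst h
  calc d ^ m ≤ Fintype.card (TV d m) := card_ge d m
    _ = (Set.range nd).ncard := by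
        rw [← Set.image_univ, Set.ncard_image_of_injective _ hinj, Set.ncard_univ,
          Nat.card_eq_fintype_card]
    _ ≤ _ := Set.ncard_le_ncard hsub (Set.toFinite _)

theorem clsT_wcol (d r : ℕ) : ∃ (n : ℕ) (G : SimpleGraph (Fin n)), ClsT d n G ∧
    d ^ r ≤ wcol r G := by
  classical
  obtain ⟨n, G, f, hf, h⟩ := le_wcol_of_rank _ (tree_wr d r _ (Nat.lt_succ_self _))
  exact ⟨n, G, ⟨r, _, f, hf⟩, h⟩

theorem clsT_polyCol {d : ℕ} (hd : 1 ≤ d) : PolyCol (ClsT d) := by
  refine ⟨1, (d : ℝ) + 1, fun r n G hr hG => ?_⟩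
  rw [Real.rpow_one]
  have h1 := clsT_col hd hG hr
  have h2 : (d - 1) * r + 2 ≤ (d + 1) * r := by
    obtain ⟨e, rfl⟩ : ∃ e, d = e + 1 := ⟨d - 1, by omega⟩
    simp only [Nat.add_sub_cancel]
    nlinarith
  exact_mod_cast h1.trans h2

end Pool.Agent.KS6_45.WC
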