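import Pool.Agent.KS6_45.WC.Bounded

set_option autoImplicit false
set_option linter.unusedSectionVars false

/-!
# Slowly growing strong colouring numbers, superpolynomial weak colouring numbers
-/

namespace Pool.Agent.KS6_45.WC

open Pool.Agent.TH492.Col
open Pool.Agent.TH492

/-- subgraphs of the gadgets with cuts of size less than `φ s`. -/
def ClsP (φ : ℕ → ℕ) (n : ℕ) (G : SimpleGraph (Fin n)) : Prop :=
  ∃ (s k : ℕ) (V : Type) (_ : Fintype V) (GV : SimpleGraph V) (Br : Set V) (g : V → ℕ),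
    k + 1 ≤ φ s ∧ Function.Injective g ∧
    (∀ v, ∃ (C : Set V) (T : Finset V), v ∈ C ∧ (∀ x ∈ C, g v ≤ g x) ∧ (∀ y ∈ T, g y < g v) ∧
        (∀ x ∈ C, ∀ y, GV.Adj x y → y ∈ C ∨ y ∈ T) ∧ (v ∈ Br → T.card ≤ k) ∧
        (v ∉ Br → T.card ≤ 2)) ∧
    (∀ b ∈ Br, ∃ δ : V → ℕ, δ b = 0 ∧ (∀ x y, GV.Adj x y → δ y ≤ δ x + 1) ∧
        ∀ x, g x < g b → s ≤ δ x) ∧
    ∃ f : G →g GV, Function.Injective f

theorem clsP_monotone (φ : ℕ → ℕ) : Monotone (ClsP φ) := by
  intro n m G H f hf ⟨s, k, V, i, GV, Br, g, hs, hg, h1, h2, f', hf'⟩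
  exact ⟨s, k, V, i, GV, Br, g, hs, hg, h1, h2, f'.comp f, hf'.comp hf⟩

theorem clsP_col {φ : ℕ → ℕ} (hφ : ∀ i j, i ≤ j → φ i ≤ φ j) (hφ1 : 3 ≤ φ 1) {n : ℕ}
    {G : SimpleGraph (Fin n)} (hG : ClsP φ n G) (r : ℕ) (hr : 1 ≤ r) : col r G ≤ φ r := by
  classical
  obtain ⟨s, k, V, i, GV, Br, g, hk, hg, h1, h2, f, hf⟩ := hG
  have hφr : 3 ≤ φ r := hφ1.trans (hφ 1 r hr)
  obtain ⟨σ, hσ⟩ := exists_perm (fun u => g (f u)) (hg.comp hf)
  apply Nat.sInf_le
  refine ⟨σ, fun u => ?_⟩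
  obtain ⟨C, T, huC, hCg, hTg, hCT, hTBr, hTnBr⟩ := h1 (f u)
  have hmem : ∀ v, v ∈ Strong G σ r u →
      v = u ∨ (f v ∈ T ∧ g (f v) < g (f u) ∧ ∃ p : GV.Walk (f u) (f v), p.length ≤ r) := by
    rintro v ⟨hvu, p, hp, hpl, hpw⟩
    rcases hvu.lt_or_eq with hlt | heq
    · right
      have hlt' : g (f v) < g (f u) := (hσ v u).1 hlt
      refine ⟨?_, hlt', p.map f, by simpa using hpl⟩
      apply closed_walk hCg hTg hCT (p.map f) huC hlt'
      intro w hw hwv
      simp only [SimpleGraph.Walk.support_map, List.mem_map] at hw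
      obtain ⟨x, hx, rfl⟩ := hw
      by_cases hxu : x = u
      · rw [hxu]
      · have hxv : x ≠ v := fun h => hwv (h ▸ rfl)
        exact ((hσ u x).1 (hpw x hx hxu hxv)).le
    · left
      exact σ.injective heq
  have hbound : (Strong G σ r u).ncard ≤ 1 + T.card := by
    have hsub : Strong G σ r u ⊆
        ((insert u (Finset.univ.filter (fun v => f v ∈ T)) : Finset (Fin n)) : Set (Fin n)) := by
      intro v hv
      rw [Finset.mem_coe, Finset.mem_insert, Finset.mem_filter]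
      rcases hmem v hv with h | h
      · exact Or.inl h
      · exact Or.inr ⟨Finset.mem_univ _, h.1⟩
    refine (Set.ncard_le_ncard hsub (Finset.finite_toSet _)).trans ?_
    rw [Set.ncard_coe_finset]
    refine (Finset.card_insert_le _ _).trans ?_
    have : (Finset.univ.filter (fun v => f v ∈ T)).card ≤ T.card := by
      apply Finset.card_le_card_of_injOn f
      · intro v hv
        simpa using hv
      · exact hf.injOn
    omega
  by_cases hBr : f u ∈ Br
  · by_cases hrs : r < s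
    · obtain ⟨δ, hδ0, hδ1, hδ2⟩ := h2 (f u) hBr
      have hsub : Strong G σ r u ⊆ {u} := by
        intro v hv
        rcases hmem v hv with h | ⟨_, h3, p, hp⟩
        · exact h
        · have h4 := lip_walk hδ1 p
          have h5 := hδ2 (f v) h3
          omega
      have := Set.ncard_le_ncard hsub (Set.finite_singleton u)
      rw [Set.ncard_singleton] at this
      omega
    · have := hTBr hBr
      have := hφ s r (by omega)
      omega
  · have := hTnBr hBr
    omega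

theorem clsP_wcol {φ : ℕ → ℕ} (s k : ℕ) (hs : 1 ≤ s) (hk : k + 1 ≤ φ s) :
    ∃ (n : ℕ) (G : SimpleGraph (Fin n)), ClsP φ n G ∧
      (s + k).choose k ≤ wcol ((s + 1) * s) G := by
  classical
  obtain ⟨V, i, GV, Br, g, hg, hD, hU1, hU2, hL⟩ := Gad.gadget s k s hs
  let e : V ≃ Fin (Fintype.card V) := Fintype.equivFin V
  let G : SimpleGraph (Fin (Fintype.card V)) := GV.comap e.symm
  let iso : G ≃g GV := SimpleGraph.Iso.comap e.symm GV
  refine ⟨Fintype.card V, G, ⟨s, k, V, i, GV, Br, g, hk, hg, hU1, hU2, iso.toHom,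
    iso.injective⟩, ?_⟩
  apply le_wcol
  intro σ
  obtain ⟨u, _, hu⟩ := hL (fun v => (σ (e v)).val)
    (fun a b hab => e.injective (σ.injective (Fin.ext hab)))
  refine ⟨e u, hu.trans ?_⟩
  apply Set.ncard_le_ncard_of_injOn e _ e.injective.injOn (Set.toFinite _)
  rintro w ⟨p, hp, hpw⟩
  let q : G.Walk (iso.symm u) (iso.symm w) := p.map iso.symm.toHom
  have hq : q.length ≤ (s + 1) * s := by
    simpa [q] using hp
  have hqs : ∀ x ∈ q.support, σ (e w) ≤ σ x := by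
    intro x hx
    simp only [q, SimpleGraph.Walk.support_map, List.mem_map] at hx
    obtain ⟨y, hy, rfl⟩ := hx
    exact hpw y hy
  exact ⟨q.bypass, q.bypass_isPath, (q.length_bypass_le_length).trans hq,
    fun x hx => hqs x (q.support_bypass_subset_support hx)⟩

theorem clsP_not_poly {φ : ℕ → ℕ} (hφ : ∀ i j, i ≤ j → φ i ≤ φ j)
    (hun : ∀ b, ∃ r, b < φ r) : ¬ PolyWcol (ClsP φ) := by
  rintro ⟨c, K, h⟩
  obtain ⟨a, k, hak⟩ := rpow_bound c K
  obtain ⟨s0, hs0⟩ := hun (2 * k + 1 + 1)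
  obtain ⟨s, hs⟩ : ∃ s, s = max (max s0 1) ((2 * k + 1).factorial * a) := ⟨_, rfl⟩
  have hs1 : 1 ≤ s := by rw [hs]; exact (le_max_right _ _).trans (le_max_left _ _)
  have hs2 : s0 ≤ s := by rw [hs]; exact (le_max_left _ _).trans (le_max_left _ _)
  have hs3 : (2 * k + 1).factorial * a ≤ s := by rw [hs]; exact le_max_right _ _
  obtain ⟨n, G, hG, hw⟩ := clsP_wcol (φ := φ) s (2 * k + 1) hs1
    (hs0.le.trans (hφ s0 s hs2))
  have hpos : 1 ≤ (s + 1) * s := Nat.one_le_iff_ne_zero.mpr (by positivity)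
  have h2 := (h ((s + 1) * s) n G hpos hG).trans (hak _ hpos)
  have h3 : (wcol ((s + 1) * s) G : ℝ) ≤ ((a * ((s + 1) * s) ^ k : ℕ) : ℝ) := by
    push_cast at h2 ⊢
    exact h2
  have h4 : wcol ((s + 1) * s) G ≤ a * ((s + 1) * s) ^ k := by exact_mod_cast h3
  have h5 : (s + 1) ^ (2 * k + 1) ≤ (2 * k + 1).factorial * (s + (2 * k + 1)).choose (2 * k + 1) := by
    have := Nat.pow_sub_le_descFactorial (s + (2 * k + 1)) (2 * k + 1)
    rw [Nat.descFactorial_eq_factorial_mul_choose] at this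
    rwa [show s + (2 * k + 1) + 1 - (2 * k + 1) = s + 1 by omega] at this
  have h6 : ((s + 1) * s) ^ k ≤ (s + 1) ^ (2 * k) := by
    calc ((s + 1) * s) ^ k ≤ ((s + 1) * (s + 1)) ^ k :=
          Nat.pow_le_pow_left (Nat.mul_le_mul_left _ (Nat.le_succ s)) k
      _ = (s + 1) ^ (2 * k) := by rw [← pow_two, ← pow_mul]
  have h7 : (s + 1) ^ (2 * k + 1) ≤ ((2 * k + 1).factorial * a) * (s + 1) ^ (2 * k) := by
    calc (s + 1) ^ (2 * k + 1)
        ≤ (2 * k + 1).factorial * (s + (2 * k + 1)).choose (2 * k + 1) := h5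
      _ ≤ (2 * k + 1).factorial * (a * ((s + 1) * s) ^ k) :=
          Nat.mul_le_mul_left _ (hw.trans h4)
      _ ≤ (2 * k + 1).factorial * (a * (s + 1) ^ (2 * k)) :=
          Nat.mul_le_mul_left _ (Nat.mul_le_mul_left _ h6)
      _ = _ := by ring
  have h8 : 0 < (s + 1) ^ (2 * k) := by positivity
  rw [pow_succ, mul_comm] at h7
  have h9 := Nat.le_of_mul_le_mul_right h7 h8
  omega

/-- the dichotomy: a bound `φ` on the strong colouring numbers forces polynomial weak colouring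
numbers exactly when `φ` is bounded. -/
theorem dichotomy (φ : ℕ → ℕ) (hφ : ∀ i j, i ≤ j → φ i ≤ φ j) (hφ1 : 3 ≤ φ 1) :
    (∀ C : (n : ℕ) → SimpleGraph (Fin n) → Prop, Monotone C →
      (∀ (r n : ℕ) (G : SimpleGraph (Fin n)), 1 ≤ r → C n G → col r G ≤ φ r) → PolyWcol C) ↔
    ∃ b, ∀ r, φ r ≤ b := by
  constructor
  · intro h
    by_contra hcon
    push Not at hcon
    exact clsP_not_poly hφ hcon (h (ClsP φ) (clsP_monotone φ)
      (fun r n G hr hG => clsP_col hφ hφ1 hG r hr))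
  · rintro ⟨b, hb⟩ C _ hC
    refine ⟨b, 2 ^ b, fun r n G hr hG => ?_⟩
    have h1 := wcol_le_of_col_le (b := b) (fun r hr => (hC r n G hr hG).trans (hb r)) r
    rw [Real.rpow_natCast, ← mul_pow]
    have h2 : ((r + 1 : ℕ) : ℝ) ≤ 2 * r := by
      have : (1 : ℝ) ≤ r := by exact_mod_cast hr
      push_cast
      linarith
    calc (wcol r G : ℝ) ≤ (((r + 1) ^ b : ℕ) : ℝ) := by exact_mod_cast h1
      _ = ((r + 1 : ℕ) : ℝ) ^ b := by push_cast; rfl
      _ ≤ (2 * r) ^ b := by gcongr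

end Pool.Agent.KS6_45.WC
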