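import Pool.Agent.KS6_45.WC.Unfold

set_option autoImplicit false
set_option linter.unusedSectionVars false

/-!
# Full `d`-ary trees in post-order
-/

namespace Pool.Agent.KS6_45.WC

open Pool.Agent.TH492.Col

/-- rank of a word in the post-order of the full `d`-ary tree of depth `m`. -/
def rk (d : ℕ) : ℕ → List (Fin d) → ℕ
  | m, [] => d * (d + 1) ^ m
  | m, b :: l => b.val * (d + 1) ^ m + rk d (m - 1) l

theorem rk_nil (d m : ℕ) : rk d m [] = d * (d + 1) ^ m := by
  unfold rk; rfl

theorem rk_cons (d m : ℕ) (b : Fin d) (l : List (Fin d)) :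
    rk d m (b :: l) = b.val * (d + 1) ^ m + rk d (m - 1) l := by
  rw [rk]

theorem rk_lt_pow (d : ℕ) (l : List (Fin d)) : ∀ m, l.length ≤ m → rk d m l < (d + 1) ^ (m + 1) := by
  induction l with
  | nil =>
    intro m _
    rw [rk_nil, pow_succ]
    have : 0 < (d + 1) ^ m := by positivity
    nlinarith
  | cons b l ih =>
    intro m hm
    rw [List.length_cons] at hm
    obtain ⟨m', rfl⟩ : ∃ m', m = m' + 1 := ⟨m - 1, by omega⟩
    rw [rk_cons, Nat.add_sub_cancel]
    have h1 := ih m' (by omega)
    have h2 : (b.val + 1) * (d + 1) ^ (m' + 1) ≤ (d + 1) * (d + 1) ^ (m' + 1) :=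
      Nat.mul_le_mul_right _ (by omega)
    rw [pow_succ (d + 1) (m' + 1), mul_comm ((d + 1) ^ (m' + 1)) (d + 1)]
    rw [add_mul, one_mul] at h2
    omega

theorem rk_cons_lt (d : ℕ) (b : Fin d) (l : List (Fin d)) (m : ℕ) (h : (b :: l).length ≤ m) :
    rk d m (b :: l) < (b.val + 1) * (d + 1) ^ m := by
  rw [List.length_cons] at h
  obtain ⟨m', rfl⟩ : ∃ m', m = m' + 1 := ⟨m - 1, by omega⟩
  rw [rk_cons, Nat.add_sub_cancel, add_mul, one_mul]
  have := rk_lt_pow d l m' (by omega)
  omega

theorem le_rk_cons (d : ℕ) (b : Fin d) (l : List (Fin d)) (m : ℕ) :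
    b.val * (d + 1) ^ m ≤ rk d m (b :: l) := by
  rw [rk_cons]
  exact Nat.le_add_right _ _

theorem rk_cons_lt_nil (d : ℕ) (b : Fin d) (l : List (Fin d)) (m : ℕ) (h : (b :: l).length ≤ m) :
    rk d m (b :: l) < rk d m [] := by
  refine (rk_cons_lt d b l m h).trans_le ?_
  rw [rk_nil]
  exact Nat.mul_le_mul_right _ b.2

theorem rk_le_nil (d : ℕ) (l : List (Fin d)) (m : ℕ) (h : l.length ≤ m) :
    rk d m l ≤ rk d m [] := by
  cases l with
  | nil => exact le_rfl
  | cons b l => exact (rk_cons_lt_nil d b l m h).le

/-- the first letter is determined by the interval -/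
theorem le_of_rk {d m : ℕ} {b c : Fin d} {l l' : List (Fin d)} (h : (c :: l').length ≤ m)
    (hr : rk d m (b :: l) ≤ rk d m (c :: l')) : b ≤ c := by
  have h1 := le_rk_cons d b l m
  have h2 := rk_cons_lt d c l' m h
  have h3 : b.val * (d + 1) ^ m < (c.val + 1) * (d + 1) ^ m := by omega
  have h4 := Nat.lt_of_mul_lt_mul_right h3
  exact Fin.le_def.2 (by omega)

theorem rk_injective (d : ℕ) (x : List (Fin d)) : ∀ (m : ℕ) (y : List (Fin d)), x.length ≤ m →
    y.length ≤ m → rk d m x = rk d m y → x = y := by
  induction x with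
  | nil =>
    intro m y _ hy h
    cases y with
    | nil => rfl
    | cons b l => exact absurd h (rk_cons_lt_nil d b l m hy).ne'
  | cons a x ih =>
    intro m y hx hy h
    cases y with
    | nil => exact absurd h (rk_cons_lt_nil d a x m hx).ne
    | cons b y =>
      have h1 : a = b := le_antisymm (le_of_rk hy h.le) (le_of_rk hx h.ge)
      subst h1
      rw [rk_cons, rk_cons] at h
      rw [List.length_cons] at hx hy
      rw [ih (m - 1) y (by omega) (by omega) (by omega)]

theorem rk_snoc_lt (d : ℕ) (z : List (Fin d)) (b : Fin d) : ∀ m, (z ++ [b]).length ≤ m →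
    rk d m (z ++ [b]) < rk d m z := by
  induction z with
  | nil => intro m h; exact rk_cons_lt_nil d b [] m h
  | cons a z ih =>
    intro m h
    rw [List.cons_append, rk_cons, rk_cons]
    rw [List.cons_append, List.length_cons] at h
    exact Nat.add_lt_add_left (ih (m - 1) (by omega)) _

theorem rk_between (d : ℕ) (z : List (Fin d)) (b : Fin d) : ∀ (m : ℕ) (x : List (Fin d)),
    (z ++ [b]).length ≤ m → x.length ≤ m → rk d m (z ++ [b]) < rk d m x → rk d m x < rk d m z →
    ∃ (c : Fin d) (l : List (Fin d)), b < c ∧ x = z ++ c :: l := by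
  induction z with
  | nil =>
    intro m x hz hx h1 h2
    cases x with
    | nil => exact absurd h2 (lt_irrefl _)
    | cons c l =>
      refine ⟨c, l, ?_, rfl⟩
      rw [List.nil_append] at h1 hz
      rcases (le_of_rk hx h1.le).lt_or_eq with h3 | h3
      · exact h3
      · exfalso
        subst h3
        rw [rk_cons, rk_cons] at h1
        rw [List.length_cons] at hx
        have := rk_le_nil d l (m - 1) (by omega)
        omega
  | cons a z ih =>
    intro m x hz hx h1 h2
    rw [List.cons_append] at h1 hz
    cases x with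
    | nil =>
      exfalso
      rw [List.length_cons] at hz
      have := rk_cons_lt_nil d a z m (by
        rw [List.length_cons]; rw [List.length_append] at hz; omega)
      omega
    | cons e x =>
      have hz' : (a :: z).length ≤ m := by
        rw [List.length_cons] at hz ⊢
        rw [List.length_append] at hz
        omega
      have h3 : a = e := le_antisymm (le_of_rk hx h1.le) (le_of_rk hz' h2.le)
      subst h3
      rw [rk_cons, rk_cons] at h1 h2
      rw [List.length_cons] at hz hx
      obtain ⟨c, l, h4, h5⟩ := ih (m - 1) x (by omega) (by omega) (by omega) (by omega)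
      exact ⟨c, l, h4, by rw [h5, List.cons_append]⟩

/-- words of length at most `m` -/
abbrev TV (d m : ℕ) : Type := {l : List (Fin d) // l.length ≤ m}

noncomputable instance (d m : ℕ) : Fintype (TV d m) :=
  Set.Finite.fintype (s := {l : List (Fin d) | l.length ≤ m}) (List.finite_length_le (Fin d) m)

/-- the full `d`-ary tree of depth `m` -/
def Tr (d m : ℕ) : SimpleGraph (TV d m) where
  Adj x y := (∃ b, y.1 = x.1 ++ [b]) ∨ (∃ b, x.1 = y.1 ++ [b])
  symm := ⟨fun _ _ h => h.symm⟩
  loopless := ⟨fun x h => by
    rcases h with ⟨b, h⟩ | ⟨b, h⟩ <;>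
    · have := congrArg List.length h
      simp at this⟩

/-- rank -/
def rg (d m : ℕ) (x : TV d m) : ℕ := rk d m x.1

theorem rg_injective (d m : ℕ) : Function.Injective (rg d m) := fun x y h =>
  Subtype.ext (rk_injective d x.1 m y.1 x.2 y.2 h)

theorem card_ge (d m : ℕ) : d ^ m ≤ Fintype.card (TV d m) := by
  classical
  have h : Function.Injective (fun f : Fin m → Fin d => (⟨List.ofFn f, by simp⟩ : TV d m)) := by
    intro f f' hff
    exact List.ofFn_injective (congrArg Subtype.val hff)
  simpa using Fintype.card_le_of_injective _ h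

/-- lower neighbours -/
theorem lower (d m : ℕ) (x : TV d m) : ∃ S : Finset (TV d m), S.card ≤ d ∧
    ∀ y, (Tr d m).Adj y x → rg d m y < rg d m x → y ∈ S := by
  classical
  refine ⟨Finset.univ.filter (fun y => ∃ b, y.1 = x.1 ++ [b]), ?_, ?_⟩
  · have h1 : (Finset.univ.filter (fun y : TV d m => ∃ b, y.1 = x.1 ++ [b])).card ≤
        ((Finset.univ : Finset (Fin d)).image (fun b => x.1 ++ [b])).card := by
      apply Finset.card_le_card_of_injOn Subtype.val
      · intro y hy
        simp only [Finset.coe_filter, Finset.mem_univ, true_and] at hy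
        obtain ⟨b, hb⟩ := hy
        simp only [Finset.coe_image, Set.mem_image]
        exact ⟨b, by simp, hb.symm⟩
      · exact Subtype.val_injective.injOn
    refine h1.trans (Finset.card_image_le.trans ?_)
    simp
  · intro y hy hlt
    rw [Finset.mem_filter]
    refine ⟨Finset.mem_univ _, ?_⟩
    rcases hy with ⟨b, hb⟩ | ⟨b, hb⟩
    · exfalso
      have := rk_snoc_lt d y.1 b m (by rw [← hb]; exact x.2)
      unfold rg at hlt
      rw [hb] at hlt
      omega
    · exact ⟨b, hb⟩

/-- sets above `x` reached after `j` steps. -/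
def CC (d m : ℕ) (x : TV d m) (j : ℕ) : Set (TV d m) :=
  {z | rg d m x ≤ rg d m z ∧ x.1.take (x.1.length - j) <+: z.1}

open Classical in
/-- vertices below `x` strongly reached after `j` steps. -/
noncomputable def TT (d m : ℕ) (x : TV d m) (j : ℕ) : Finset (TV d m) :=
  Finset.univ.filter (fun y => (∃ b, y.1 = x.1 ++ [b]) ∨
    ∃ h, 1 ≤ h ∧ h < j ∧ ∃ b : Fin d, b.val < d - 1 ∧ y.1 = x.1.take (x.1.length - h) ++ [b])

theorem mem_TT (d m : ℕ) (x : TV d m) (j : ℕ) (y : TV d m) : y ∈ TT d m x j ↔
    ((∃ b, y.1 = x.1 ++ [b]) ∨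
    ∃ h, 1 ≤ h ∧ h < j ∧ ∃ b : Fin d, b.val < d - 1 ∧ y.1 = x.1.take (x.1.length - h) ++ [b]) := by
  classical
  unfold TT
  rw [Finset.mem_filter]
  exact ⟨fun h => h.2, fun h => ⟨Finset.mem_univ _, h⟩⟩

theorem TT_card (d m : ℕ) (x : TV d m) (j : ℕ) : (TT d m x j).card ≤ d + (j - 1) * (d - 1) := by
  classical
  have h1 : (TT d m x j).card ≤
      (((Finset.univ : Finset (Fin d)).image (fun b => x.1 ++ [b])) ∪
      ((Finset.range (j - 1) ×ˢ (Finset.univ.filter (fun b : Fin d => b.val < d - 1))).image
        (fun q => x.1.take (x.1.length - (q.1 + 1)) ++ [q.2]))).card := by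
    apply Finset.card_le_card_of_injOn Subtype.val
    · intro y hy
      rw [Finset.mem_coe, mem_TT] at hy
      rw [Finset.mem_coe, Finset.mem_union]
      rcases hy with ⟨b, hb⟩ | ⟨h, h1, h2, b, h3, h4⟩
      · left
        rw [Finset.mem_image]
        exact ⟨b, by simp, hb.symm⟩
      · right
        rw [Finset.mem_image]
        refine ⟨(h - 1, b), ?_, ?_⟩
        · rw [Finset.mem_product, Finset.mem_range, Finset.mem_filter]
          exact ⟨by simp only; omega, Finset.mem_univ _, h3⟩
        · simp only
          rw [show h - 1 + 1 = h by omega, h4]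
    · exact Subtype.val_injective.injOn
  refine h1.trans ((Finset.card_union_le _ _).trans ?_)
  apply add_le_add
  · refine Finset.card_image_le.trans ?_
    simp
  · refine Finset.card_image_le.trans ?_
    rw [Finset.card_product, Finset.card_range]
    apply Nat.mul_le_mul_left
    have h2 : (Finset.univ.filter (fun b : Fin d => b.val < d - 1)).card ≤
        (Finset.range (d - 1)).card := by
      apply Finset.card_le_card_of_injOn Fin.val
      · intro b hb
        simpa using hb
      · exact Fin.val_injective.injOn
    simpa using h2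

theorem cert (d m : ℕ) (x : TV d m) : Cert (Tr d m) (rg d m) x (CC d m x) (TT d m x) where
  start := ⟨le_rfl, by simp⟩
  ge := fun j z hz => hz.1
  mono := by
    intro j y hy
    rw [mem_TT] at hy ⊢
    rcases hy with h | ⟨h, h1, h2, h3⟩
    · exact Or.inl h
    · exact Or.inr ⟨h, h1, by omega, h3⟩
  step := by
    rintro j z ⟨hz1, hz2⟩ y hzy
    have htake : x.1.take (x.1.length - (j + 1)) <+: x.1.take (x.1.length - j) :=
      List.take_prefix_take_left (by omega)
    rcases hzy with ⟨b, hb⟩ | ⟨b, hb⟩
    · -- y is a child of z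
      rcases lt_or_ge (rg d m y) (rg d m x) with hlt | hge
      · right
        refine ⟨?_, hlt⟩
        rw [mem_TT]
        rcases hz1.lt_or_eq with h1 | h1
        · right
          obtain ⟨c, l, hbc, hx⟩ := rk_between d z.1 b m x.1 (by rw [← hb]; exact y.2) x.2
            (by rw [← hb]; exact hlt) h1
          have hlen : x.1.length = z.1.length + (l.length + 1) := by
            rw [hx, List.length_append, List.length_cons]
          have hlen2 := hz2.length_le
          rw [List.length_take] at hlen2
          refine ⟨l.length + 1, by omega, by omega, b, ?_, ?_⟩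
          · have := c.2
            have := Fin.lt_def.1 hbc
            omega
          · rw [hb, hlen, Nat.add_sub_cancel, hx, List.take_left]
        · left
          exact ⟨b, by rw [hb, rg_injective d m h1]⟩
      · left
        refine ⟨⟨hge, ?_⟩, hge⟩
        rw [hb]
        exact htake.trans (hz2.trans (List.prefix_append _ _))
    · -- y is the parent of z
      left
      have h1 : rg d m z < rg d m y := by
        unfold rg
        rw [hb]
        exact rk_snoc_lt d y.1 b m (by rw [← hb]; exact z.2)
      refine ⟨⟨hz1.trans h1.le, ?_⟩, hz1.trans h1.le⟩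
      rw [hb] at hz2
      rcases List.prefix_concat_iff.1 hz2 with h2 | h2
      · -- equality
        have h3 : x.1.length - j = y.1.length + 1 ∨ x.1.length - j > x.1.length := by
          have := congrArg List.length h2
          rw [List.length_take, List.length_append, List.length_singleton] at this
          omega
        have h4 : x.1.length - (j + 1) = y.1.length := by omega
        have h5 : x.1.take (x.1.length - (j + 1)) = y.1 := by
          have h6 : x.1.take (x.1.length - (j + 1)) =
              (x.1.take (x.1.length - j)).take (x.1.length - (j + 1)) := by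
            rw [List.take_take]
            congr 1
            omega
          rw [h6, h2, h4, List.take_left]
        rw [h5]
      · exact htake.trans h2

end Pool.Agent.KS6_45.WC
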