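import Pool.Graph.R_seed8.TH492.Sep

set_option autoImplicit false
set_option linter.unusedSectionVars false

/-!
# The unfolding of an ordered graph

Given a finite graph `H` on `α` with an injective rank `g : α → ℕ`, the unfolding has vertices
`(h, w)` with `w : α → Fin (N+1)`; `(h', w')` is a lower neighbour of `(h, w)` if `h'` is a lower
neighbour of `h` and `w'` is the truncation of `w` at `h'`.
-/

namespace Pool.Agent.KS6_45.WC

open Pool.Agent.TH492.Col

section unfold

variable {α : Type} [Fintype α] [DecidableEq α] (H : SimpleGraph α) (g : α → ℕ) (N : ℕ)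

/-- vertices of the unfolding -/
abbrev UV (α : Type) (N : ℕ) : Type := α × (α → Fin (N + 1))

/-- truncation of a word at `h` -/
def trunc (h : α) (w : α → Fin (N + 1)) : α → Fin (N + 1) := fun x => if g x ≤ g h then w x else 0

theorem trunc_trunc {h h' : α} (hh : g h ≤ g h') (w : α → Fin (N + 1)) :
    trunc g N h (trunc g N h' w) = trunc g N h w := by
  funext x
  unfold trunc
  by_cases hx : g x ≤ g h
  · rw [if_pos hx, if_pos (hx.trans hh), if_pos hx]
  · rw [if_neg hx, if_neg hx]

/-- `u` is a lower neighbour of `v` -/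
def Below (u v : UV α N) : Prop := g u.1 < g v.1 ∧ H.Adj u.1 v.1 ∧ u.2 = trunc g N u.1 v.2

/-- the unfolding -/
def Unf : SimpleGraph (UV α N) where
  Adj u v := Below H g N u v ∨ Below H g N v u
  symm := ⟨fun _ _ h => h.symm⟩
  loopless := ⟨fun u h => by rcases h with h | h <;> exact lt_irrefl _ h.1⟩

/-- the extensions of a vertex -/
def Ext (h : α) (w : α → Fin (N + 1)) : Set (UV α N) :=
  {z | (z.1 = h ∧ z.2 = w) ∨ (g h < g z.1 ∧ trunc g N h z.2 = w)}

/-- a certificate bounding what is strongly reachable from `h` -/
structure Cert (h : α) (C : ℕ → Set α) (T : ℕ → Finset α) : Prop where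
  start : h ∈ C 0
  step : ∀ j z, z ∈ C j → ∀ y, H.Adj z y →
    (y ∈ C (j + 1) ∧ g h ≤ g y) ∨ (y ∈ T (j + 1) ∧ g y < g h)
  mono : ∀ j, T j ⊆ T (j + 1)
  ge : ∀ j z, z ∈ C j → g h ≤ g z

variable {H g N}

theorem Cert.mono' {h : α} {C : ℕ → Set α} {T : ℕ → Finset α} (c : Cert H g h C T) {i j : ℕ}
    (hij : i ≤ j) : T i ⊆ T j := by
  induction hij with
  | refl => exact Finset.Subset.refl _
  | step _ ih => exact ih.trans (c.mono _)

theorem ext_step (hg : Function.Injective g) {h : α} {w : α → Fin (N + 1)} {z y : UV α N}
    (hz : z ∈ Ext g N h w) (hzy : (Unf H g N).Adj z y) :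
    (g h ≤ g y.1 → y ∈ Ext g N h w) ∧ (g y.1 < g h → y.2 = trunc g N y.1 w) := by
  have hgz : g h ≤ g z.1 := by
    rcases hz with ⟨h1, _⟩ | ⟨h1, _⟩
    · rw [h1]
    · exact h1.le
  constructor
  · intro hy
    rcases hzy with hb | hb
    · -- z below y
      right
      refine ⟨lt_of_le_of_lt hgz hb.1, ?_⟩
      rcases hz with ⟨h1, h2⟩ | ⟨h1, h2⟩
      · rw [← h2, hb.2.2, h1]
      · rw [← h2, hb.2.2, trunc_trunc g N h1.le]
    · -- y below z
      have h3 : g h < g z.1 := lt_of_le_of_lt hy hb.1
      have h4 : trunc g N h z.2 = w := by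
        rcases hz with ⟨h1, h2⟩ | ⟨h1, h2⟩
        · rw [h1] at h3; exact absurd h3 (lt_irrefl _)
        · exact h2
      rcases hy.lt_or_eq with h5 | h5
      · right
        exact ⟨h5, by rw [hb.2.2, trunc_trunc g N h5.le, h4]⟩
      · left
        have h6 : y.1 = h := (hg h5).symm
        refine ⟨h6, ?_⟩
        rw [hb.2.2, h6, h4]
  · intro hy
    rcases hzy with hb | hb
    · exact absurd (hb.1.trans hy) (not_lt.2 hgz)
    · rcases hz with ⟨h1, h2⟩ | ⟨h1, h2⟩
      · rw [hb.2.2, h2]
      · rw [hb.2.2, ← h2, trunc_trunc g N hy.le]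

/-- what a walk from an extension, staying at or above `x`, can reach below `x`. -/
theorem ext_walk (hg : Function.Injective g) (γ : UV α N → ℕ)
    (hγ : ∀ u v : UV α N, g u.1 < g v.1 → γ u < γ v)
    {h : α} {w : α → Fin (N + 1)} {C : ℕ → Set α} {T : ℕ → Finset α} (c : Cert H g h C T)
    {z y : UV α N} (p : (Unf H g N).Walk z y) :
    ∀ j, z ∈ Ext g N h w → z.1 ∈ C j → γ y < γ (h, w) →
      (∀ x ∈ p.support, x ≠ y → γ (h, w) ≤ γ x) →
      y.1 ∈ T (j + p.length) ∧ y.2 = trunc g N y.1 w := by
  induction p with
  | @nil z =>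
    intro j hz hzC hy _
    exfalso
    rcases hz with ⟨h1, h2⟩ | ⟨h1, h2⟩
    · have : z = (h, w) := Prod.ext h1 h2
      rw [this] at hy
      exact lt_irrefl _ hy
    · exact absurd (hγ (h, w) z h1) (not_lt.2 hy.le)
  | @cons z z' y hzz p ih =>
    intro j hz hzC hy hp
    have hadj : H.Adj z.1 z'.1 := by
      rcases hzz with hb | hb
      · exact hb.2.1
      · exact hb.2.1.symm
    obtain ⟨e1, e2⟩ := ext_step (w := w) hg hz hzz
    rcases c.step j z.1 hzC z'.1 hadj with ⟨h1, h2⟩ | ⟨h1, h2⟩
    · have h3 := ih (j + 1) (e1 h2) h1 hy (fun x hx hxy => hp x (by simp [hx]) hxy)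
      rw [SimpleGraph.Walk.length_cons, show j + (p.length + 1) = j + 1 + p.length by ring]
      exact h3
    · have h3 : z' = y := by
        by_contra hne
        have h4 := hp z' (by simp) hne
        have h5 := hγ z' (h, w) h2
        omega
      subst h3
      refine ⟨c.mono' (by rw [SimpleGraph.Walk.length_cons]; omega) h1, e2 h2⟩

/-- an injective rank of the unfolding refining the rank of the base. -/
theorem exists_rank (hg : Function.Injective g) : ∃ γ : UV α N → ℕ, Function.Injective γ ∧
    ∀ u v : UV α N, g u.1 < g v.1 → γ u < γ v := by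
  classical
  obtain ⟨B, hB⟩ : ∃ B, B = Fintype.card (α → Fin (N + 1)) := ⟨_, rfl⟩
  let e : (α → Fin (N + 1)) ≃ Fin (Fintype.card (α → Fin (N + 1))) := Fintype.equivFin _
  refine ⟨fun u => g u.1 * B + (e u.2).val, ?_, ?_⟩
  · rintro ⟨a, w⟩ ⟨b, w'⟩ h
    simp only at h
    have h1 : (e w).val < B := hB ▸ (e w).2
    have h2 : (e w').val < B := hB ▸ (e w').2
    have h3 : g a = g b := by
      rcases lt_trichotomy (g a) (g b) with h4 | h4 | h4
      · have : (g a + 1) * B ≤ g b * B := Nat.mul_le_mul_right _ h4
        rw [add_mul, one_mul] at this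
        omega
      · exact h4
      · have : (g b + 1) * B ≤ g a * B := Nat.mul_le_mul_right _ h4
        rw [add_mul, one_mul] at this
        omega
    rw [h3] at h
    have h4 : e w = e w' := Fin.ext (by omega)
    rw [hg h3, e.injective h4]
  · rintro ⟨a, w⟩ ⟨b, w'⟩ h
    simp only at h ⊢
    have h1 : (e w).val < B := hB ▸ (e w).2
    have : (g a + 1) * B ≤ g b * B := Nat.mul_le_mul_right _ h
    rw [add_mul, one_mul] at this
    omega

/-- strong colouring numbers of subgraphs of the unfolding. -/
theorem col_le_of_cert (hg : Function.Injective g) {r K : ℕ}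
    (hc : ∀ h : α, ∃ (C : ℕ → Set α) (T : ℕ → Finset α), Cert H g h C T ∧ (T r).card ≤ K)
    {n : ℕ} {G : SimpleGraph (Fin n)} (f : G →g Unf H g N) (hf : Function.Injective f) :
    col r G ≤ K + 1 := by
  classical
  obtain ⟨γ, hγi, hγ⟩ := exists_rank (g := g) (N := N) hg
  obtain ⟨σ, hσ⟩ := exists_perm (fun u => γ (f u)) (hγi.comp hf)
  apply Nat.sInf_le
  refine ⟨σ, fun u => ?_⟩
  obtain ⟨C, T, c, hT⟩ := hc (f u).1
  have hsub : Strong G σ r u ⊆ insert u (f ⁻¹' ((fun h' => (h', trunc g N h' (f u).2)) ''
      (T r : Set α))) := by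
    rintro v ⟨hvu, p, _, hpl, hpw⟩
    rcases hvu.lt_or_eq with hlt | heq
    · right
      have hlt' : γ (f v) < γ (f u) := (hσ v u).1 hlt
      have h1 := ext_walk (w := (f u).2) hg γ hγ c (p.map f) 0 (Or.inl ⟨rfl, rfl⟩) c.start hlt'
        (by
          intro w hw hwv
          rw [SimpleGraph.Walk.support_map, List.mem_map] at hw
          obtain ⟨x, hx, rfl⟩ := hw
          by_cases hxu : x = u
          · rw [hxu]
          · have hxv : x ≠ v := fun h => hwv (h ▸ rfl)
            exact ((hσ u x).1 (hpw x hx hxu hxv)).le)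
      refine ⟨(f v).1, ?_, ?_⟩
      · refine c.mono' ?_ h1.1
        rw [SimpleGraph.Walk.length_map]
        omega
      · exact Prod.ext rfl h1.2.symm
    · left
      exact σ.injective heq
  have hfin : (f ⁻¹' ((fun h' => (h', trunc g N h' (f u).2)) '' (T r : Set α))).Finite :=
    Set.toFinite _
  calc (Strong G σ r u).ncard ≤ (insert u (f ⁻¹' ((fun h' => (h', trunc g N h' (f u).2)) ''
      (T r : Set α)))).ncard := Set.ncard_le_ncard hsub (Set.toFinite _)
    _ ≤ (f ⁻¹' ((fun h' => (h', trunc g N h' (f u).2)) '' (T r : Set α))).ncard + 1 :=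
        Set.ncard_insert_le _ _
    _ ≤ K + 1 := by
        apply Nat.add_le_add_right
        refine (Set.ncard_le_ncard_of_injOn f (fun a ha => ha) hf.injOn (Set.toFinite _)).trans ?_
        refine (Set.ncard_image_le (Set.toFinite _)).trans ?_
        rw [Set.ncard_coe_finset]
        exact hT

open Pool.Agent.TH492.Gad (WR)

/-- forcing: in every order either some vertex weakly `1`-reaches many vertices, or some branch of
the unfolding is ordered as the base. -/
theorem forcing (hg : Function.Injective g) {d Q : ℕ}
    (hd : ∀ h : α, ∃ S : Finset α, S.card ≤ d ∧ ∀ h', H.Adj h' h → g h' < g h → h' ∈ S)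
    (hN : d * Q < N + 1) (τ : UV α N → ℕ) (hτ : Function.Injective τ)
    (hQ : ∀ u, (WR (Unf H g N) τ 1 u).ncard ≤ Q) :
    ∃ w : α → Fin (N + 1), ∀ h h', H.Adj h' h → g h' < g h →
      τ (h', trunc g N h' w) < τ (h, trunc g N h w) := by
  classical
  have key : ∀ p : ℕ, ∃ w : α → Fin (N + 1), ∀ h, g h < p → ∀ h', H.Adj h' h → g h' < g h →
      τ (h', trunc g N h' w) < τ (h, trunc g N h w) := by
    intro p
    induction p with
    | zero => exact ⟨fun _ => 0, fun h hh => absurd hh (Nat.not_lt_zero _)⟩
    | succ p ih =>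
      obtain ⟨w, hw⟩ := ih
      by_cases hex : ∃ a, g a = p
      · obtain ⟨a, ha⟩ := hex
        by_contra hcon
        push Not at hcon
        have htr : ∀ (x : α) (j : Fin (N + 1)), g x < g a →
            trunc g N x (Function.update w a j) = trunc g N x w := by
          intro x j hx
          funext y
          unfold trunc
          by_cases hy : g y ≤ g x
          · rw [if_pos hy, if_pos hy, Function.update_of_ne]
            rintro rfl
            omega
          · rw [if_neg hy, if_neg hy]
        obtain ⟨S, hS1, hS2⟩ := hd a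
        have h1 : ∀ j : Fin (N + 1), ∃ h' ∈ S, (g h' < g a ∧ H.Adj h' a) ∧
            τ (a, trunc g N a (Function.update w a j)) < τ (h', trunc g N h' w) := by
          intro j
          obtain ⟨h, hh, h', hadj, hlt, hle⟩ := hcon (Function.update w a j)
          have h2 : h = a := by
            by_contra hne
            have h3 : g h < p := by
              have : g h ≠ p := fun he => hne (hg (he.trans ha.symm))
              omega
            have h4 := hw h h3 h' hadj hlt
            rw [htr h j (by omega), htr h' j (by omega)] at hle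
            omega
          subst h2
          rw [htr h' j hlt] at hle
          refine ⟨h', hS2 h' hadj hlt, ⟨hlt, hadj⟩, lt_of_le_of_ne hle ?_⟩
          intro he
          have := congrArg Prod.fst (hτ he)
          simp only at this
          rw [this] at hlt
          exact lt_irrefl _ hlt
        choose F hF1 hF3 hF2 using h1
        obtain ⟨h', hh', hcard⟩ := Finset.exists_lt_card_fiber_of_mul_lt_card_of_maps_to
          (s := (Finset.univ : Finset (Fin (N + 1)))) (f := F) (n := Q)
          (fun j _ => hF1 j)
          (lt_of_le_of_lt (Nat.mul_le_mul_right Q hS1) (by simpa using hN))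
        have h5 : ((Finset.univ.filter (fun j => F j = h')) : Finset (Fin (N + 1))).card ≤
            (WR (Unf H g N) τ 1 (h', trunc g N h' w)).ncard := by
          rw [← Set.ncard_coe_finset]
          apply Set.ncard_le_ncard_of_injOn
            (fun j => (a, trunc g N a (Function.update w a j)))
          · intro j hj
            have hj : F j = h' := by simpa using hj
            have h6 := hF2 j
            rw [hj] at h6
            have h7 : g h' < g a ∧ H.Adj h' a := by
              have := hF3 j
              rwa [hj] at this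
            have hadj : (Unf H g N).Adj (h', trunc g N h' w)
                (a, trunc g N a (Function.update w a j)) := by
              left
              refine ⟨h7.1, h7.2, ?_⟩
              simp only
              rw [trunc_trunc g N h7.1.le, htr h' j h7.1]
            refine ⟨.cons hadj .nil, by simp, ?_⟩
            intro x hx
            simp only [SimpleGraph.Walk.support_cons, SimpleGraph.Walk.support_nil, List.mem_cons,
              List.not_mem_nil, or_false] at hx
            rcases hx with rfl | rfl
            · exact h6.le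
            · exact le_rfl
          · intro j _ j' _ hjj
            have := congrFun (congrArg Prod.snd hjj) a
            simpa [trunc] using this
        have := hQ (h', trunc g N h' w)
        omega
      · refine ⟨w, fun h hh => hw h ?_⟩
        have : g h ≠ p := fun he => hex ⟨h, he⟩
        omega
  obtain ⟨w, hw⟩ := key ((Finset.univ.sup g) + 1)
  refine ⟨w, fun h h' hadj hlt => hw h ?_ h' hadj hlt⟩
  have := Finset.le_sup (f := g) (Finset.mem_univ h)
  omega

end unfold

end Pool.Agent.KS6_45.WC
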