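import Pool.Graph.R_seed8.TH492.Sep

set_option autoImplicit false
set_option linter.unusedSectionVars false

/-!
# Weak colouring numbers grow at most exponentially

If one order witnesses `|Strong_i(u)| ≤ A i^c` for all `i ≥ 1`, then the same order has
`|Weak_r(u)| ≤ (A 2^{c+1})^r` for all `r`.
-/

namespace Pool.Agent.KS6_45.WC

open Pool.Agent.TH492.Col

/-- Split a walk at the first vertex below `u`. -/
theorem split_walk {n : ℕ} {G : SimpleGraph (Fin n)} {σ : Equiv.Perm (Fin n)} {u : Fin n}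
    {x v : Fin n} (p : G.Walk x v) (hx : σ u ≤ σ x) (hv : σ v < σ u) :
    ∃ (w : Fin n) (q1 : G.Walk x w) (q2 : G.Walk w v), σ w < σ u ∧
      q1.length + q2.length = p.length ∧ 1 ≤ q1.length ∧
      (∀ z ∈ q1.support, z ≠ w → σ u ≤ σ z) ∧ (∀ z ∈ q2.support, z ∈ p.support) := by
  induction p with
  | nil => exact absurd hv (not_lt.2 hx)
  | @cons a b c hab p ih =>
    by_cases hb : σ b < σ u
    · refine ⟨b, .cons hab .nil, p, hb, ?_, ?_, ?_, ?_⟩
      · simp [add_comm]
      · simp
      · intro z hz hzb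
        simp only [SimpleGraph.Walk.support_cons, SimpleGraph.Walk.support_nil, List.mem_cons,
          List.not_mem_nil, or_false] at hz
        rcases hz with rfl | rfl
        · exact hx
        · exact absurd rfl hzb
      · intro z hz
        simp [hz]
    · obtain ⟨w, q1, q2, h1, h2, h3, h4, h5⟩ := ih (not_lt.1 hb) hv
      refine ⟨w, .cons hab q1, q2, h1, ?_, ?_, ?_, ?_⟩
      · simp only [SimpleGraph.Walk.length_cons]; omega
      · simp only [SimpleGraph.Walk.length_cons]; omega
      · intro z hz hzw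
        rw [SimpleGraph.Walk.support_cons, List.mem_cons] at hz
        rcases hz with rfl | hz
        · exact hx
        · exact h4 z hz hzw
      · intro z hz
        rw [SimpleGraph.Walk.support_cons, List.mem_cons]
        exact Or.inr (h5 z hz)

/-- a walk whose vertices but the last are not below `u` gives strong reachability. -/
theorem strong_of_split {n : ℕ} {G : SimpleGraph (Fin n)} {σ : Equiv.Perm (Fin n)} {u w : Fin n}
    (q : G.Walk u w) (hw : σ w < σ u) (h : ∀ z ∈ q.support, z ≠ w → σ u ≤ σ z) {i : ℕ}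
    (hi : q.length ≤ i) : w ∈ Strong G σ i u := by
  classical
  refine ⟨hw.le, q.bypass, q.bypass_isPath, (q.length_bypass_le_length).trans hi, ?_⟩
  intro z hz hzu hzw
  have h1 := h z (q.support_bypass_subset_support hz) hzw
  exact lt_of_le_of_ne h1 (fun he => hzu (σ.injective he).symm)

theorem mem_weak_of_walk {n : ℕ} {G : SimpleGraph (Fin n)} {σ : Equiv.Perm (Fin n)} {u v : Fin n}
    (q : G.Walk u v) (h : ∀ z ∈ q.support, σ v ≤ σ z) {i : ℕ}
    (hi : q.length ≤ i) : v ∈ Weak G σ i u := by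
  classical
  exact ⟨q.bypass, q.bypass_isPath, (q.length_bypass_le_length).trans hi,
    fun z hz => h z (q.support_bypass_subset_support hz)⟩

/-- the recursion for weak reachability. -/
theorem weak_step {n : ℕ} {G : SimpleGraph (Fin n)} {σ : Equiv.Perm (Fin n)} {r : ℕ}
    {u v : Fin n} (hv : v ∈ Weak G σ r u) (hvu : v ≠ u) :
    ∃ i, i < r ∧ ∃ w ∈ Strong G σ (i + 1) u, σ w < σ u ∧ v ∈ Weak G σ (r - 1 - i) w := by
  obtain ⟨p, _, hpl, hpm⟩ := hv
  have h0 : σ v < σ u := lt_of_le_of_ne (hpm u p.start_mem_support)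
    (fun he => hvu (σ.injective he))
  obtain ⟨w, q1, q2, h1, h2, h3, h4, h5⟩ := split_walk p le_rfl h0
  refine ⟨q1.length - 1, by omega, w, strong_of_split q1 h1 h4 (by omega), h1,
    mem_weak_of_walk q2 (fun z hz => hpm z (h5 z hz)) (by omega)⟩

theorem geom_bound (D : ℕ) (r : ℕ) :
    ∑ i ∈ Finset.range r, D ^ (i + 1) * (2 * D) ^ (r - 1 - i) + D ^ r ≤ (2 * D) ^ r := by
  induction r with
  | zero => simp
  | succ r ih =>
    rw [Finset.sum_range_succ]
    have h1 : ∀ i ∈ Finset.range r, D ^ (i + 1) * (2 * D) ^ (r + 1 - 1 - i) =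
        (2 * D) * (D ^ (i + 1) * (2 * D) ^ (r - 1 - i)) := by
      intro i hi
      rw [Finset.mem_range] at hi
      have : r + 1 - 1 - i = (r - 1 - i) + 1 := by omega
      rw [this, pow_succ]
      ring
    rw [Finset.sum_congr rfl h1, ← Finset.mul_sum]
    have h2 : r + 1 - 1 - r = 0 := by omega
    rw [h2, pow_zero, mul_one]
    calc 2 * D * ∑ i ∈ Finset.range r, D ^ (i + 1) * (2 * D) ^ (r - 1 - i) + D ^ (r + 1)
          + D ^ (r + 1)
        = 2 * D * (∑ i ∈ Finset.range r, D ^ (i + 1) * (2 * D) ^ (r - 1 - i) + D ^ r) := by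
          rw [pow_succ]; ring
      _ ≤ 2 * D * (2 * D) ^ r := Nat.mul_le_mul_left _ ih
      _ = (2 * D) ^ (r + 1) := by rw [pow_succ]; ring

theorem weak_le_pow {n : ℕ} {G : SimpleGraph (Fin n)} {σ : Equiv.Perm (Fin n)} {A c : ℕ}
    (hA : 1 ≤ A) (h : ∀ i, 1 ≤ i → ∀ u, (Strong G σ i u).ncard ≤ A * i ^ c) (r : ℕ) :
    ∀ u, (Weak G σ r u).ncard ≤ (2 * (A * 2 ^ c)) ^ r := by
  classical
  have hD : 1 ≤ A * 2 ^ c := Nat.one_le_iff_ne_zero.2 (by positivity)
  induction r using Nat.strong_induction_on with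
  | _ r ih =>
    intro u
    have hfin : ∀ (i : ℕ) (w : Fin n), (Weak G σ i w).Finite := fun i w => Set.toFinite _
    have hfinS : ∀ (i : ℕ) (w : Fin n), (Strong G σ i w).Finite := fun i w => Set.toFinite _
    let F : Finset (Fin n) := insert u ((Finset.range r).biUnion (fun i =>
      (hfinS (i + 1) u).toFinset.biUnion (fun w => (hfin (r - 1 - i) w).toFinset)))
    have hsub : Weak G σ r u ⊆ (F : Set (Fin n)) := by
      intro v hv
      rw [Finset.mem_coe, Finset.mem_insert]
      by_cases hvu : v = u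
      · exact Or.inl hvu
      · right
        obtain ⟨i, hi, w, hw, _, hvw⟩ := weak_step hv hvu
        rw [Finset.mem_biUnion]
        refine ⟨i, Finset.mem_range.2 hi, ?_⟩
        rw [Finset.mem_biUnion]
        exact ⟨w, by simpa using hw, by simpa using hvw⟩
    have h1 : (Weak G σ r u).ncard ≤ F.card := by
      have := Set.ncard_le_ncard hsub (Finset.finite_toSet _)
      rwa [Set.ncard_coe_finset] at this
    rcases Nat.eq_zero_or_pos r with hr | hr
    · subst hr
      refine h1.trans ?_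
      simp [F]
    refine h1.trans ((Finset.card_insert_le _ _).trans ?_)
    have h2 : ((Finset.range r).biUnion (fun i =>
        (hfinS (i + 1) u).toFinset.biUnion (fun w => (hfin (r - 1 - i) w).toFinset))).card ≤
        ∑ i ∈ Finset.range r, (A * 2 ^ c) ^ (i + 1) * (2 * (A * 2 ^ c)) ^ (r - 1 - i) := by
      refine Finset.card_biUnion_le.trans (Finset.sum_le_sum ?_)
      intro i hi
      rw [Finset.mem_range] at hi
      refine (Finset.card_biUnion_le_card_mul _ _ ((2 * (A * 2 ^ c)) ^ (r - 1 - i)) ?_).trans ?_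
      · intro w _
        have := ih (r - 1 - i) (by omega) w
        rwa [Set.ncard_eq_toFinset_card _ (hfin _ _)] at this
      · apply Nat.mul_le_mul_right
        have h3 := h (i + 1) (by omega) u
        rw [Set.ncard_eq_toFinset_card _ (hfinS _ _)] at h3
        refine h3.trans ?_
        have h4 : (i + 1) ^ c ≤ (2 ^ c) ^ (i + 1) := by
          rw [← pow_mul, mul_comm c, pow_mul]
          exact Nat.pow_le_pow_left (Nat.lt_two_pow_self).le c
        calc A * (i + 1) ^ c ≤ A ^ (i + 1) * (2 ^ c) ^ (i + 1) :=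
              Nat.mul_le_mul (Nat.le_self_pow (by omega) A) h4
          _ = (A * 2 ^ c) ^ (i + 1) := (mul_pow _ _ _).symm
    have h5 := geom_bound (A * 2 ^ c) r
    have h6 : 1 ≤ (A * 2 ^ c) ^ r := Nat.one_le_pow _ _ hD
    omega

/-- every class with polynomial expansion has at most exponential weak colouring numbers. -/
theorem wcol_le_pow {C : (n : ℕ) → SimpleGraph (Fin n) → Prop} (h : PolyExpansion C) :
    ∃ K : ℕ, ∀ (r n : ℕ) (G : SimpleGraph (Fin n)), C n G → wcol r G ≤ K ^ r := by
  obtain ⟨c, K, hC⟩ := uniform_of_polyExp h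
  obtain ⟨a, k, hak⟩ := rpow_bound c K
  refine ⟨2 * ((a + 1) * 2 ^ k), fun r n G hG => ?_⟩
  obtain ⟨σ, hσ⟩ := hC n G hG
  apply Nat.sInf_le
  refine ⟨σ, weak_le_pow (by omega) ?_ r⟩
  intro i hi u
  have h1 := (hσ i hi u).trans (hak i hi)
  have h2 : ((Strong G σ i u).ncard : ℝ) ≤ (((a + 1) * i ^ k : ℕ) : ℝ) := by
    refine h1.trans ?_
    push_cast
    have : (0 : ℝ) ≤ (i : ℝ) ^ k := by positivity
    nlinarith
  exact_mod_cast h2

end Pool.Agent.KS6_45.WC
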